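import Pool.Agent.U307.RAD.Stm3

set_option autoImplicit false

namespace Pool.Agent.U283.RAD

open Pool.Agent.U307.RAD

lemma prod_fac (l i N : ℕ) :
    (∏ h ∈ Finset.range N, ((l : ℝ) + 1 + i + h)) * ((l + i).factorial : ℝ) =
      ((l + i + N).factorial : ℝ) := by
  induction N with
  | zero => simp
  | succ N ih =>
    rw [Finset.prod_range_succ, mul_right_comm, ih, ← add_assoc, Nat.factorial_succ]
    push_cast
    ring

lemma Cc_eq (l i s : ℕ) : Cc (i + s + 1) l i =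
    (-1) ^ s * ((l + i + (i + s) + 1).factorial : ℝ) /
      (((l + i).factorial : ℝ) * (i.factorial : ℝ) * (s.factorial : ℝ)) := by
  unfold Cc
  have h1 : i + s + 1 - 1 - i = s := by omega
  rw [h1]
  have h2 := prod_fac l i (i + s + 1)
  have h3 : ((l + i).factorial : ℝ) ≠ 0 := by exact_mod_cast Nat.factorial_ne_zero _
  have h4 : (i.factorial : ℝ) ≠ 0 := by exact_mod_cast Nat.factorial_ne_zero _
  have h5 : (s.factorial : ℝ) ≠ 0 := by exact_mod_cast Nat.factorial_ne_zero _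
  have h6 : l + i + (i + s + 1) = l + i + (i + s) + 1 := by omega
  rw [h6] at h2
  rw [← h2]
  field_simp

lemma aa_eq (l i s : ℕ) : aa (i + s) l i =
    (-1) ^ s * ((i + s + l + i).factorial : ℝ) /
      ((s.factorial : ℝ) * ((l + i).factorial : ℝ) * (i.factorial : ℝ)) := by
  unfold aa
  have h1 : i + s - i = s := by omega
  rw [h1]

lemma h_zero (m l : ℕ) : Cc (m + 1) l 0 =
    (((m + 1 : ℕ) : ℝ) * (((m + 1 : ℕ) : ℝ) + l) / (2 * ((m + 1 : ℕ) : ℝ) + l)) *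
      (aa m l 0 - aa (m + 1) l 0) := by
  have h1 := Cc_eq l 0 m
  have h2 := aa_eq l 0 m
  have h3 := aa_eq l 0 (m + 1)
  simp only [Nat.zero_add, Nat.add_zero, Nat.factorial_zero, Nat.cast_one, mul_one] at h1 h2 h3
  rw [h1, h2, h3]
  have e1 : l + m + 1 = (m + l) + 1 := by omega
  have e2 : m + 1 + l = (m + l) + 1 := by omega
  rw [e1, e2, Nat.factorial_succ (m + l), Nat.factorial_succ m]
  have f1 : ((m + l).factorial : ℝ) ≠ 0 := by exact_mod_cast Nat.factorial_ne_zero _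
  have f2 : (m.factorial : ℝ) ≠ 0 := by exact_mod_cast Nat.factorial_ne_zero _
  have f3 : (l.factorial : ℝ) ≠ 0 := by exact_mod_cast Nat.factorial_ne_zero _
  have f4 : (2 * ((m : ℝ) + 1) + l) ≠ 0 := by positivity
  have f5 : ((m : ℝ) + 1) ≠ 0 := by positivity
  push_cast
  rw [pow_succ]
  field_simp
  ring

lemma h_succ (l j s : ℕ) : Cc (j + 1 + s + 1) l (j + 1) - Cc (j + 1 + s + 1) l j =
    (((j + 1 + s + 1 : ℕ) : ℝ) * (((j + 1 + s + 1 : ℕ) : ℝ) + l) /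
      (2 * ((j + 1 + s + 1 : ℕ) : ℝ) + l)) *
      (aa (j + 1 + s) l (j + 1) - aa (j + 1 + s + 1) l (j + 1)) := by
  have h1 := Cc_eq l (j + 1) s
  have h2 := Cc_eq l j (s + 1)
  have h3 := aa_eq l (j + 1) s
  have h4 := aa_eq l (j + 1) (s + 1)
  have e0 : j + (s + 1) + 1 = j + 1 + s + 1 := by omega
  have e1 : j + 1 + (s + 1) = j + 1 + s + 1 := by omega
  rw [e0] at h2
  rw [e1] at h4
  rw [h1, h2, h3, h4]
  have e2 : l + (j + 1) + (j + 1 + s) + 1 = (l + 2 * j + s + 2) + 1 := by omega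
  have e3 : l + j + (j + (s + 1)) + 1 = l + 2 * j + s + 2 := by omega
  have e4 : j + 1 + s + l + (j + 1) = l + 2 * j + s + 2 := by omega
  have e5 : j + 1 + s + 1 + l + (j + 1) = (l + 2 * j + s + 2) + 1 := by omega
  have e6 : l + (j + 1) = (l + j) + 1 := by omega
  rw [e2, e3, e4, e5, e6, Nat.factorial_succ (l + 2 * j + s + 2), Nat.factorial_succ (l + j),
    Nat.factorial_succ j, Nat.factorial_succ s]
  have f1 : ((l + 2 * j + s + 2).factorial : ℝ) ≠ 0 := by exact_mod_cast Nat.factorial_ne_zero _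
  have f2 : (j.factorial : ℝ) ≠ 0 := by exact_mod_cast Nat.factorial_ne_zero _
  have f3 : (s.factorial : ℝ) ≠ 0 := by exact_mod_cast Nat.factorial_ne_zero _
  have f4 : ((l + j).factorial : ℝ) ≠ 0 := by exact_mod_cast Nat.factorial_ne_zero _
  have f5 : (2 * ((j : ℝ) + 1 + s + 1) + l) ≠ 0 := by positivity
  have f6 : ((j : ℝ) + 1) ≠ 0 := by positivity
  have f7 : ((s : ℝ) + 1) ≠ 0 := by positivity
  have f8 : ((l : ℝ) + j + 1) ≠ 0 := by positivity
  push_cast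
  generalize ((l + 2 * j + s + 2).factorial : ℝ) = F at *
  rw [pow_succ]
  field_simp
  ring

lemma h_last (m l : ℕ) : - Cc (m + 1) l m =
    (((m + 1 : ℕ) : ℝ) * (((m + 1 : ℕ) : ℝ) + l) / (2 * ((m + 1 : ℕ) : ℝ) + l)) *
      (- aa (m + 1) l (m + 1)) := by
  have h1 := Cc_eq l m 0
  have h3 := aa_eq l (m + 1) 0
  simp only [Nat.add_zero, Nat.factorial_zero, Nat.cast_one, mul_one, one_mul, pow_zero] at h1 h3
  rw [h1, h3]
  have e1 : l + m + m + 1 = l + 2 * m + 1 := by omega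
  have e2 : m + 1 + l + (m + 1) = (l + 2 * m + 1) + 1 := by omega
  have e3 : l + (m + 1) = (l + m) + 1 := by omega
  rw [e1, e2, e3, Nat.factorial_succ (l + 2 * m + 1), Nat.factorial_succ m,
    Nat.factorial_succ (l + m)]
  have f1 : ((l + 2 * m + 1).factorial : ℝ) ≠ 0 := by exact_mod_cast Nat.factorial_ne_zero _
  have f2 : (m.factorial : ℝ) ≠ 0 := by exact_mod_cast Nat.factorial_ne_zero _
  have f3 : ((l + m).factorial : ℝ) ≠ 0 := by exact_mod_cast Nat.factorial_ne_zero _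
  have f4 : (2 * ((m : ℝ) + 1) + l) ≠ 0 := by positivity
  have f5 : ((m : ℝ) + 1) ≠ 0 := by positivity
  have f6 : ((l : ℝ) + m + 1) ≠ 0 := by positivity
  push_cast
  generalize ((l + 2 * m + 1).factorial : ℝ) = F at *
  field_simp
  ring

theorem t_CD : S_CD := by
  intro n l r hn
  obtain ⟨m, rfl⟩ : ∃ m, n = m + 1 := ⟨n - 1, by omega⟩
  rw [Nat.add_sub_cancel]
  unfold uu ph
  have a1 : ∑ i ∈ Finset.range (m + 1), Cc (m + 1) l i * r ^ (l + 2 * i) =
      ∑ i ∈ Finset.range m, Cc (m + 1) l (i + 1) * r ^ (l + 2 * (i + 1)) +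
        Cc (m + 1) l 0 * r ^ (l + 2 * 0) := Finset.sum_range_succ' _ _
  have a2 : ∑ i ∈ Finset.range (m + 1), Cc (m + 1) l i * r ^ (l + 2 * i) =
      ∑ i ∈ Finset.range m, Cc (m + 1) l i * r ^ (l + 2 * i) +
        Cc (m + 1) l m * r ^ (l + 2 * m) := Finset.sum_range_succ _ _
  have a3 : r ^ 2 * ∑ i ∈ Finset.range m, Cc (m + 1) l i * r ^ (l + 2 * i) =
      ∑ i ∈ Finset.range m, Cc (m + 1) l i * r ^ (l + 2 * (i + 1)) := by
    rw [Finset.mul_sum]
    refine Finset.sum_congr rfl fun i _ => ?_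
    have : l + 2 * (i + 1) = l + 2 * i + 2 := by omega
    rw [this, pow_add]
    ring
  have a4 : ∑ i ∈ Finset.range (m + 1), aa m l i * r ^ (l + 2 * i) =
      ∑ i ∈ Finset.range m, aa m l (i + 1) * r ^ (l + 2 * (i + 1)) +
        aa m l 0 * r ^ (l + 2 * 0) := Finset.sum_range_succ' _ _
  have a5 : ∑ i ∈ Finset.range (m + 1 + 1), aa (m + 1) l i * r ^ (l + 2 * i) =
      ∑ i ∈ Finset.range m, aa (m + 1) l (i + 1) * r ^ (l + 2 * (i + 1)) +
        aa (m + 1) l 0 * r ^ (l + 2 * 0) + aa (m + 1) l (m + 1) * r ^ (l + 2 * (m + 1)) := by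
    rw [Finset.sum_range_succ, Finset.sum_range_succ']
  set γ : ℝ := ((m + 1 : ℕ) : ℝ) * (((m + 1 : ℕ) : ℝ) + l) / (2 * ((m + 1 : ℕ) : ℝ) + l) with hγ
  have b1 : ∑ i ∈ Finset.range m, Cc (m + 1) l (i + 1) * r ^ (l + 2 * (i + 1)) -
      ∑ i ∈ Finset.range m, Cc (m + 1) l i * r ^ (l + 2 * (i + 1)) =
      γ * (∑ i ∈ Finset.range m, aa m l (i + 1) * r ^ (l + 2 * (i + 1)) -
        ∑ i ∈ Finset.range m, aa (m + 1) l (i + 1) * r ^ (l + 2 * (i + 1))) := by
    rw [← Finset.sum_sub_distrib, ← Finset.sum_sub_distrib, Finset.mul_sum]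
    refine Finset.sum_congr rfl fun i hi => ?_
    have hi := Finset.mem_range.1 hi
    obtain ⟨s, rfl⟩ : ∃ s, m = i + 1 + s := ⟨m - (i + 1), by omega⟩
    have := h_succ l i s
    rw [← sub_mul, this, ← sub_mul, hγ]
    ring
  have b0 := h_zero m l
  have b2 := h_last m l
  rw [← hγ] at b0 b2
  have c1 : (1 - r ^ 2) * (2 * ∑ i ∈ Finset.range (m + 1), Cc (m + 1) l i * r ^ (l + 2 * i)) =
      2 * ((∑ i ∈ Finset.range m, Cc (m + 1) l (i + 1) * r ^ (l + 2 * (i + 1)) -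
        ∑ i ∈ Finset.range m, Cc (m + 1) l i * r ^ (l + 2 * (i + 1))) +
        Cc (m + 1) l 0 * r ^ (l + 2 * 0) + (- Cc (m + 1) l m) * r ^ (l + 2 * (m + 1))) := by
    have d1 : (1 - r ^ 2) * (2 * ∑ i ∈ Finset.range (m + 1), Cc (m + 1) l i * r ^ (l + 2 * i)) =
      2 * (∑ i ∈ Finset.range (m + 1), Cc (m + 1) l i * r ^ (l + 2 * i) -
        r ^ 2 * ∑ i ∈ Finset.range (m + 1), Cc (m + 1) l i * r ^ (l + 2 * i)) := by ring
    rw [d1]
    nth_rewrite 2 [a2]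
    rw [a1, mul_add, a3]
    have d2 : r ^ (l + 2 * (m + 1)) = r ^ 2 * r ^ (l + 2 * m) := by
      rw [← pow_add]
      congr 1
      omega
    rw [d2]
    ring
  rw [c1, a4, a5, b1, b0, b2]
  ring

end Pool.Agent.U283.RAD
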